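import Pool.Agent.Lib.H36D.Defs
import Pool.Agent.Lib.H53M.Q1

/-!
# H53D, I1: Kolchin-Ostrowski for power series

`R` a `θ`-closed `ℚ`-subalgebra of `ℚ⟦q⟧`, `h_s` with `θ h_s ∈ R`, such that no `v ∑ c_s h_s` is in `R`
(`v ≠ 0` in `R`, `c ≠ 0`). Then the `h_s` are algebraically independent over `R`.
-/

namespace H53D

open PowerSeries H53M H36D Finset

theorem coeff_mul_low {f g : PowerSeries ℚ} {n m : ℕ} (hf : ∀ i < n, coeff i f = 0)
    (hg : ∀ j < m, coeff j g = 0) : coeff (n + m) (f * g) = coeff n f * coeff m g := by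
  rw [coeff_mul]
  refine Finset.sum_eq_single (n, m) ?_ ?_
  · rintro ⟨i, j⟩ hij hne
    rw [Finset.HasAntidiagonal.mem_antidiagonal] at hij
    simp only at hij ⊢
    rcases lt_trichotomy i n with h | h | h
    · rw [hf i h, zero_mul]
    · exact absurd (by rw [h]; congr 1; omega) hne
    · rw [hg j (by omega), mul_zero]
  · intro h
    exact absurd (Finset.HasAntidiagonal.mem_antidiagonal.2 (by simp)) h

theorem exists_low {f : PowerSeries ℚ} (hf : f ≠ 0) :
    ∃ n, coeff n f ≠ 0 ∧ ∀ i < n, coeff i f = 0 := by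
  classical
  have h1 : ∃ n, coeff n f ≠ 0 := by
    by_contra h
    push Not at h
    exact hf (PowerSeries.ext fun n => by rw [h n, map_zero])
  exact ⟨Nat.find h1, Nat.find_spec h1, fun i hi => not_not.1 (Nat.find_min h1 hi)⟩

theorem coeff_th (f : PowerSeries ℚ) (n : ℕ) : coeff n (th f) = n * coeff n f := by
  unfold th
  rw [coeff_mk]

theorem th_sub (f g : PowerSeries ℚ) : th (f - g) = th f - th g := by
  ext n
  rw [map_sub, coeff_th, coeff_th, coeff_th, map_sub]
  ring

/-- Constants: `u θy = θu y` implies that `y` is a constant multiple of `u`. -/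
theorem const_of {u y : PowerSeries ℚ} (hu : u ≠ 0) (h : u * th y = th u * y) :
    ∃ κ : ℚ, y = κ • u := by
  obtain ⟨n, hn, hn'⟩ := exists_low hu
  refine ⟨coeff n y / coeff n u, ?_⟩
  by_contra hne
  have hw0 : y - (coeff n y / coeff n u) • u ≠ 0 := sub_ne_zero.2 hne
  set w := y - (coeff n y / coeff n u) • u with hw
  have h1 : coeff n w = 0 := by
    rw [hw, map_sub, coeff_smul, smul_eq_mul, div_mul_cancel₀ _ hn, sub_self]
  have h2 : u * th w = th u * w := by
    rw [hw, th_sub, th_smul, mul_sub, mul_sub, h, mul_smul_comm, mul_smul_comm, mul_comm u (th u)]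
  obtain ⟨m, hm, hm'⟩ := exists_low hw0
  have h3 : coeff (n + m) (u * th w) = coeff n u * coeff m (th w) :=
    coeff_mul_low hn' fun j hj => by rw [coeff_th, hm' j hj, mul_zero]
  have h4 : coeff (n + m) (th u * w) = coeff n (th u) * coeff m w :=
    coeff_mul_low (fun j hj => by rw [coeff_th, hn' j hj, mul_zero]) hm'
  rw [h2, h4, coeff_th, coeff_th] at h3
  have h5 : (coeff n u * coeff m w) * ((n : ℚ) - m) = 0 := by linear_combination h3
  have h6 : ((n : ℚ) - m) = 0 := (mul_eq_zero.1 h5).resolve_left (mul_ne_zero hn hm)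
  have h7 : n = m := by exact_mod_cast sub_eq_zero.1 h6
  rw [← h7] at hm
  exact hm h1

variable {r : ℕ}

/-- The multi-indices of degree at most `D`. -/
def SD (r D : ℕ) : Finset (Fin r → ℕ) :=
  (Fintype.piFinset fun _ : Fin r => Finset.range (D + 1)).filter fun α => ∑ s, α s ≤ D

theorem mem_SD {D : ℕ} {α : Fin r → ℕ} : α ∈ SD r D ↔ ∑ s, α s ≤ D := by
  unfold SD
  rw [mem_filter, Fintype.mem_piFinset]
  refine ⟨fun h => h.2, fun h => ⟨fun s => mem_range.2 ?_, h⟩⟩
  have := Finset.single_le_sum (f := α) (fun _ _ => Nat.zero_le _) (mem_univ s)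
  omega

/-- The sum of `P_α h^α` over `|α| ≤ D`. -/
noncomputable def sm (h : Fin r → PowerSeries ℚ) (D : ℕ) (P : (Fin r → ℕ) → PowerSeries ℚ) :
    PowerSeries ℚ := ∑ α ∈ SD r D, P α * Hm h α

/-- The derivative of the coefficients. -/
noncomputable def dP (h : Fin r → PowerSeries ℚ) (P : (Fin r → ℕ) → PowerSeries ℚ)
    (β : Fin r → ℕ) : PowerSeries ℚ :=
  th (P β) + ∑ s, (((β s + 1 : ℕ) : ℚ) • P (β + Pi.single s 1)) * th (h s)

theorem th_zero : th (0 : PowerSeries ℚ) = 0 := by
  ext n
  rw [coeff_th, map_zero, mul_zero]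

theorem th_one : th (1 : PowerSeries ℚ) = 0 := by
  ext n
  rw [coeff_th, coeff_one]
  rcases n with _ | n
  · simp
  · simp

theorem th_sum {ι : Type*} (S : Finset ι) (f : ι → PowerSeries ℚ) :
    th (∑ i ∈ S, f i) = ∑ i ∈ S, th (f i) := by
  classical
  induction S using Finset.induction_on with
  | empty => rw [sum_empty, sum_empty, th_zero]
  | insert a S ha ih => rw [sum_insert ha, sum_insert ha, th_add, ih]

theorem th_prod {ι : Type*} [DecidableEq ι] (S : Finset ι) (f : ι → PowerSeries ℚ) :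
    th (∏ i ∈ S, f i) = ∑ i ∈ S, (∏ j ∈ S.erase i, f j) * th (f i) := by
  induction S using Finset.induction_on with
  | empty => rw [prod_empty, sum_empty, th_one]
  | insert a S ha ih =>
    rw [prod_insert ha, th_mul, ih, sum_insert ha, erase_insert ha, mul_sum, mul_comm (th (f a))]
    refine congrArg₂ (· + ·) rfl (sum_congr rfl fun i hi => ?_)
    have hne : i ≠ a := fun h => ha (h ▸ hi)
    rw [erase_insert_of_ne (Ne.symm hne), prod_insert (fun h => ha (mem_of_mem_erase h)), mul_assoc]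

theorem th_Hm (h : Fin r → PowerSeries ℚ) (α : Fin r → ℕ) :
    th (Hm h α) = ∑ s, ((α s : ℕ) : ℚ) • (Hm h (α - Pi.single s 1) * th (h s)) := by
  unfold Hm
  rw [th_prod]
  refine sum_congr rfl fun s _ => ?_
  rw [th_pow]
  have h1 : ∏ t, h t ^ ((α - Pi.single s 1 : Fin r → ℕ) t) = h s ^ (α s - 1) * ∏ t ∈ univ.erase s, h t ^ α t := by
    rw [← mul_prod_erase univ _ (mem_univ s)]
    congr 1
    · simp
    · refine prod_congr rfl fun t ht => ?_
      rw [Pi.sub_apply, Pi.single_eq_of_ne (ne_of_mem_erase ht), Nat.sub_zero]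
  rw [h1, smul_eq_C_mul]
  have h2 : (C ((α s : ℕ) : ℚ) : PowerSeries ℚ) = ((α s : ℕ) : PowerSeries ℚ) := by
    rw [map_natCast]
  rw [h2]
  ring

theorem single_add_sub (β : Fin r → ℕ) (s : Fin r) : β + Pi.single s 1 - Pi.single s 1 = β := by
  funext t
  simp

theorem sum_add_single (β : Fin r → ℕ) (s : Fin r) :
    ∑ t, (β + Pi.single s 1 : Fin r → ℕ) t = ∑ t, β t + 1 := by
  simp only [Pi.add_apply]
  rw [sum_add_distrib, Finset.sum_pi_single']
  simp

theorem sub_add_single {α : Fin r → ℕ} {s : Fin r} (h : α s ≠ 0) :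
    α - Pi.single s 1 + Pi.single s 1 = α := by
  funext t
  by_cases ht : t = s
  · rw [ht]
    simp
    omega
  · simp [Pi.single_eq_of_ne ht]

theorem th_sm (h : Fin r → PowerSeries ℚ) (D : ℕ) (P : (Fin r → ℕ) → PowerSeries ℚ)
    (hP : ∀ α, D < ∑ s, α s → P α = 0) : th (sm h D P) = sm h D (dP h P) := by
  unfold sm dP
  rw [th_sum]
  have h1 : ∀ α ∈ SD r D, th (P α * Hm h α) = th (P α) * Hm h α +
      ∑ s, ((α s : ℕ) : ℚ) • (P α * (Hm h (α - Pi.single s 1) * th (h s))) := by
    intro α _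
    rw [th_mul, th_Hm, mul_sum]
    congr 1
    refine sum_congr rfl fun s _ => ?_
    rw [mul_smul_comm]
  rw [sum_congr rfl h1, sum_add_distrib]
  have h2 : ∀ β ∈ SD r D, (th (P β) + ∑ s, (((β s + 1 : ℕ) : ℚ) • P (β + Pi.single s 1)) * th (h s)) *
      Hm h β = th (P β) * Hm h β + ∑ s, ((((β s + 1 : ℕ) : ℚ) • P (β + Pi.single s 1)) * th (h s)) *
        Hm h β := by
    intro β _
    rw [add_mul, sum_mul]
  rw [sum_congr rfl h2, sum_add_distrib]
  congr 1
  rw [sum_comm, sum_comm (s := SD r D)]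
  refine sum_congr rfl fun s _ => ?_
  symm
  refine sum_bij_ne_zero (fun β _ _ => β + Pi.single s 1) ?_ ?_ ?_ ?_
  · intro β hβ hne
    rw [mem_SD]
    by_contra hcon
    apply hne
    rw [hP _ (by omega), smul_zero, zero_mul, zero_mul]
  · intro β _ _ β' _ _ heq
    exact add_right_cancel heq
  · intro α hα hne
    have hs : α s ≠ 0 := by
      intro h0
      apply hne
      rw [h0, Nat.cast_zero, zero_smul]
    have hα' := sub_add_single hs
    have hsum := sum_add_single (α - Pi.single s 1) s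
    rw [hα'] at hsum
    refine ⟨α - Pi.single s 1, ?_, ?_, hα'⟩
    · rw [mem_SD] at hα ⊢
      omega
    · intro h0
      apply hne
      rw [hα'] at h0
      have h3 : (α - Pi.single s 1 : Fin r → ℕ) s + 1 = α s := by
        have := congrFun hα' s
        simpa using this
      rw [h3] at h0
      rw [← h0, smul_mul_assoc, smul_mul_assoc]
      ring_nf
  · intro β _ _
    rw [single_add_sub, smul_mul_assoc, smul_mul_assoc]
    have h3 : (β + Pi.single s 1 : Fin r → ℕ) s = β s + 1 := by simp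
    rw [h3]
    congr 1
    ring

theorem sm_smul (h : Fin r → PowerSeries ℚ) (D : ℕ) (u : PowerSeries ℚ)
    (P : (Fin r → ℕ) → PowerSeries ℚ) : sm h D (fun α => u * P α) = u * sm h D P := by
  unfold sm
  rw [mul_sum]
  exact sum_congr rfl fun α _ => mul_assoc _ _ _

theorem sm_sub (h : Fin r → PowerSeries ℚ) (D : ℕ) (P Q : (Fin r → ℕ) → PowerSeries ℚ) :
    sm h D (fun α => P α - Q α) = sm h D P - sm h D Q := by
  unfold sm
  rw [← sum_sub_distrib]
  exact sum_congr rfl fun α _ => sub_mul _ _ _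

/-- The hypotheses of Kolchin-Ostrowski. -/
structure KO (R : Subalgebra ℚ (PowerSeries ℚ)) (h : Fin r → PowerSeries ℚ) : Prop where
  th_mem : ∀ x ∈ R, th x ∈ R
  h_mem : ∀ s, th (h s) ∈ R
  lin : ∀ v ∈ R, v ≠ 0 → ∀ c : Fin r → ℚ, c ≠ 0 → v * ∑ s, c s • h s ∉ R

theorem final_step {R : Subalgebra ℚ (PowerSeries ℚ)} {h : Fin r → PowerSeries ℚ} (hK : KO R h)
    {P : (Fin r → ℕ) → PowerSeries ℚ} (hPR : ∀ α, P α ∈ R) {α₀ : Fin r → ℕ} (h0 : P α₀ ≠ 0)
    (hα₀ : ∑ s, α₀ s ≠ 0)
    (htop : ∀ α, ∑ s, α s = ∑ s, α₀ s → P α₀ * th (P α) = th (P α₀) * P α)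
    (hz : ∀ β, P α₀ * dP h P β = th (P α₀) * P β) : False := by
  obtain ⟨s, -, hs⟩ := Finset.exists_ne_zero_of_sum_ne_zero hα₀
  obtain ⟨β, hβ⟩ : ∃ β, β = α₀ - Pi.single s 1 := ⟨_, rfl⟩
  have hβs : β + Pi.single s 1 = α₀ := by rw [hβ, sub_add_single hs]
  have hsum : ∑ t, β t + 1 = ∑ t, α₀ t := by rw [← sum_add_single β s, hβs]
  have hc : ∀ t, ∃ κ : ℚ, P (β + Pi.single t 1) = κ • P α₀ := by
    intro t
    refine const_of h0 (htop _ ?_)
    rw [sum_add_single, hsum]
  choose c hc using hc
  have hcs : c s = 1 := by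
    have h1 := hc s
    rw [hβs] at h1
    have h2 : (1 - c s) • P α₀ = 0 := by rw [sub_smul, one_smul, ← h1, sub_self]
    rcases smul_eq_zero.1 h2 with h3 | h3
    · linarith
    · exact absurd h3 h0
  obtain ⟨γ, hγ⟩ : ∃ γ : Fin r → ℚ, γ = fun t => ((β t + 1 : ℕ) : ℚ) * c t := ⟨_, rfl⟩
  have hγ0 : γ ≠ 0 := by
    intro h1
    have h2 := congrFun h1 s
    rw [hγ] at h2
    simp only [hcs, mul_one, Pi.zero_apply] at h2
    have : ((β s + 1 : ℕ) : ℚ) ≠ 0 := by positivity
    exact this h2
  have h3 := hz β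
  unfold dP at h3
  have h4 : ∑ t, (((β t + 1 : ℕ) : ℚ) • P (β + Pi.single t 1)) * th (h t) =
      P α₀ * ∑ t, γ t • th (h t) := by
    rw [mul_sum]
    refine sum_congr rfl fun t _ => ?_
    rw [hc t, hγ, smul_smul, smul_mul_assoc, mul_smul_comm]
  rw [h4] at h3
  have h5 : th (∑ t, γ t • h t) = ∑ t, γ t • th (h t) := by
    rw [th_sum]
    exact sum_congr rfl fun t _ => th_smul _ _
  obtain ⟨κ, hκ⟩ := const_of (u := P α₀) (y := P β + P α₀ * ∑ t, γ t • h t) h0 (by
    rw [th_add, th_mul, h5]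
    linear_combination h3)
  refine hK.lin _ (hPR α₀) h0 γ hγ0 ?_
  have h6 : P α₀ * ∑ t, γ t • h t = κ • P α₀ - P β := by
    rw [← hκ]
    ring
  rw [h6]
  exact R.sub_mem (R.smul_mem (hPR _) κ) (hPR _)

theorem ko_main {R : Subalgebra ℚ (PowerSeries ℚ)} {h : Fin r → PowerSeries ℚ} (hK : KO R h) :
    ∀ (D : ℕ) (P : (Fin r → ℕ) → PowerSeries ℚ), (∀ α, P α ∈ R) →
      (∀ α, D < ∑ s, α s → P α = 0) → sm h D P = 0 → ∀ α, P α = 0 := by
  classical
  intro D
  induction D with
  | zero =>
    intro P hPR hP hsm α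
    by_cases hα : 0 < ∑ s, α s
    · exact hP α hα
    · have h1 : ∀ β : Fin r → ℕ, ∑ s, β s ≤ 0 → β = 0 := by
        intro β hβ
        funext s
        have := Finset.single_le_sum (f := β) (fun _ _ => Nat.zero_le _) (mem_univ s)
        simp only [Pi.zero_apply]
        omega
      have h2 : SD r 0 = {0} := by
        ext β
        rw [mem_SD, mem_singleton]
        exact ⟨h1 β, fun h => by rw [h]; simp⟩
      unfold sm at hsm
      rw [h2, sum_singleton] at hsm
      have h3 : Hm h 0 = 1 := by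
        unfold Hm
        simp
      rw [h3, mul_one] at hsm
      rw [h1 α (by omega)]
      exact hsm
  | succ D ih =>
    suffices H : ∀ (N : ℕ) (P : (Fin r → ℕ) → PowerSeries ℚ),
        ((SD r (D + 1)).filter fun α => ∑ s, α s = D + 1 ∧ P α ≠ 0).card = N → (∀ α, P α ∈ R) →
        (∀ α, D + 1 < ∑ s, α s → P α = 0) → sm h (D + 1) P = 0 → ∀ α, P α = 0 by
      intro P hPR hP hsm
      exact H _ P rfl hPR hP hsm
    intro N
    induction N using Nat.strong_induction_on with
    | _ N ihN =>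
      intro P hN hPR hP hsm
      by_cases htop : ∀ α, ∑ s, α s = D + 1 → P α = 0
      · refine ih P hPR (fun α hα => ?_) ?_
        · rcases Nat.lt_or_ge (D + 1) (∑ s, α s) with h1 | h1
          · exact hP α h1
          · exact htop α (by omega)
        · rw [← hsm]
          unfold sm
          refine sum_subset ?_ ?_
          · intro α hα
            rw [mem_SD] at hα ⊢
            omega
          · intro α hα hα'
            rw [mem_SD] at hα hα'
            rw [htop α (by omega), zero_mul]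
      · push Not at htop
        obtain ⟨α₀, hα₀, h0⟩ := htop
        exfalso
        -- the new relation
        obtain ⟨P', hP'⟩ : ∃ P' : (Fin r → ℕ) → PowerSeries ℚ,
            P' = fun β => P α₀ * dP h P β - th (P α₀) * P β := ⟨_, rfl⟩
        have hdP : ∀ β, D + 1 ≤ ∑ s, β s → dP h P β = th (P β) := by
          intro β hβ
          unfold dP
          rw [sum_eq_zero, add_zero]
          intro s _
          rw [hP _ (by rw [sum_add_single]; omega), smul_zero, zero_mul]
        have h1 : ∀ α, P' α = 0 := by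
          refine ihN _ ?_ P' rfl ?_ ?_ ?_
          · rw [← hN]
            refine card_lt_card ⟨?_, ?_⟩
            · intro α hα
              rw [mem_filter] at hα ⊢
              refine ⟨hα.1, hα.2.1, fun h2 => hα.2.2 ?_⟩
              rw [hP']
              simp only
              rw [hdP α (by rw [hα.2.1]), h2, th_zero, mul_zero, mul_zero, sub_zero]
            · intro hsub
              have h2 := hsub (mem_filter.2 ⟨mem_SD.2 (le_of_eq hα₀), hα₀, h0⟩)
              apply (mem_filter.1 h2).2.2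
              rw [hP']
              simp only
              rw [hdP α₀ (by rw [hα₀])]
              ring
          · intro α
            rw [hP']
            refine R.sub_mem (R.mul_mem (hPR _) (R.add_mem (hK.th_mem _ (hPR _)) ?_))
              (R.mul_mem (hK.th_mem _ (hPR _)) (hPR _))
            exact R.sum_mem fun s _ => R.mul_mem (R.smul_mem (hPR _) _) (hK.h_mem s)
          · intro α hα
            rw [hP']
            simp only
            rw [hdP α (by omega), hP α hα, th_zero, mul_zero, mul_zero, sub_zero]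
          · rw [hP', sm_sub, sm_smul, sm_smul, ← th_sm h (D + 1) P hP, hsm, th_zero, mul_zero,
              mul_zero, sub_zero]
        have h2 : ∀ β, P α₀ * dP h P β = th (P α₀) * P β := by
          intro β
          have h3 := h1 β
          rw [hP'] at h3
          exact sub_eq_zero.1 h3
        refine final_step hK hPR h0 (by omega) (fun α hα => ?_) h2
        rw [← hdP α (by omega)]
        exact h2 α

end H53D
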