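import Pool.Agent.Lib.H53D.I1

/-!
# H53D, I2: the series `h_s = ∑ (a(n)/n) q^((s+1) n)` are algebraically independent over `ℤ[[q]]`

Series with bounded denominators, one large prime `l` with `l ∤ a(l)` in the denominators.
-/

namespace H53D

open PowerSeries H53M H36D Finset

/-- The series with bounded denominators. -/
def BD : Subalgebra ℚ (PowerSeries ℚ) where
  carrier := {f | ∃ N : ℕ, N ≠ 0 ∧ ∃ g : PowerSeries ℤ, (N : ℚ) • f = toQ g}
  mul_mem' := by
    rintro f f' ⟨N, hN, g, hg⟩ ⟨N', hN', g', hg'⟩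
    refine ⟨N * N', mul_ne_zero hN hN', g * g', ?_⟩
    rw [map_mul, ← hg, ← hg', smul_mul_smul_comm]
    push_cast
    rfl
  add_mem' := by
    rintro f f' ⟨N, hN, g, hg⟩ ⟨N', hN', g', hg'⟩
    refine ⟨N * N', mul_ne_zero hN hN', C (N' : ℤ) * g + C (N : ℤ) * g', ?_⟩
    rw [map_add]
    have h1 : ∀ (m : ℕ) (f : PowerSeries ℤ), toQ (C (m : ℤ) * f) = (m : ℚ) • toQ f := by
      intro m f
      rw [map_mul, smul_eq_C_mul, map_C]
      simp
    rw [h1, h1, ← hg, ← hg', smul_smul, smul_smul, smul_add]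
    push_cast
    rw [mul_comm (N' : ℚ) N]
  algebraMap_mem' := by
    intro q
    refine ⟨q.den, q.den_nz, C q.num, ?_⟩
    ext n
    have h1 : algebraMap ℚ (PowerSeries ℚ) q = C q := rfl
    rw [h1, coeff_smul, coeff_C, coeff_map, coeff_C]
    by_cases hn : n = 0
    · rw [if_pos hn, if_pos hn, smul_eq_mul, mul_comm, Rat.mul_den_eq_num]
      rfl
    · rw [if_neg hn, if_neg hn, smul_zero, map_zero]

theorem mem_BD {f : PowerSeries ℚ} :
    f ∈ BD ↔ ∃ N : ℕ, N ≠ 0 ∧ ∃ g : PowerSeries ℤ, (N : ℚ) • f = toQ g := Iff.rfl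

theorem toQ_mem (g : PowerSeries ℤ) : toQ g ∈ BD :=
  ⟨1, one_ne_zero, g, by simp⟩

theorem th_mem_BD {f : PowerSeries ℚ} (hf : f ∈ BD) : th f ∈ BD := by
  obtain ⟨N, hN, g, hg⟩ := hf
  refine ⟨N, hN, th g, ?_⟩
  rw [← th_smul, hg, th_map]

/-- The `l`-integral rational numbers. -/
def LI (l : ℕ) [Fact l.Prime] : Subring ℚ where
  carrier := {x | padicNorm l x ≤ 1}
  mul_mem' := by
    intro x y hx hy
    change padicNorm l (x * y) ≤ 1
    rw [padicNorm.mul]
    exact mul_le_one₀ hx (padicNorm.nonneg _) hy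
  one_mem' := by
    change padicNorm l 1 ≤ 1
    rw [padicNorm.one]
  add_mem' := by
    intro x y hx hy
    exact padicNorm.nonarchimedean.trans (max_le hx hy)
  zero_mem' := by
    change padicNorm l 0 ≤ 1
    rw [padicNorm.zero]
    exact zero_le_one
  neg_mem' := by
    intro x hx
    change padicNorm l (-x) ≤ 1
    rw [padicNorm.neg]
    exact hx

theorem mem_LI {l : ℕ} [Fact l.Prime] {x : ℚ} : x ∈ LI l ↔ padicNorm l x ≤ 1 := Iff.rfl

theorem int_mem_LI {l : ℕ} [Fact l.Prime] (z : ℤ) : (z : ℚ) ∈ LI l := padicNorm.of_int z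

theorem div_mem_LI {l : ℕ} [Fact l.Prime] (z : ℤ) {m : ℕ} (hm : ¬ l ∣ m) :
    (z : ℚ) / (m : ℚ) ∈ LI l := by
  rw [mem_LI, padicNorm.div, (padicNorm.nat_eq_one_iff m).2 hm, div_one]
  exact padicNorm.of_int z

theorem norm_one_of_large {l : ℕ} [Fact l.Prime] {x : ℚ} (hx : x ≠ 0)
    (h1 : x.num.natAbs < l) (h2 : x.den < l) : padicNorm l x = 1 := by
  have h3 : ¬ l ∣ x.num.natAbs := fun h => by
    have := Nat.le_of_dvd (Int.natAbs_pos.2 (Rat.num_ne_zero.2 hx)) h
    omega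
  have h4 : ¬ l ∣ x.den := fun h => by
    have := Nat.le_of_dvd x.den_pos h
    omega
  have h5 : padicNorm l ((x.num : ℚ) / (x.den : ℚ)) = 1 := by
    rw [padicNorm.div, (padicNorm.nat_eq_one_iff x.den).2 h4, div_one]
    refine (padicNorm.int_eq_one_iff x.num).2 fun h => h3 ?_
    exact Int.natCast_dvd.1 h
  rwa [Rat.num_div_den] at h5

theorem mem_LI_of_large {l : ℕ} [Fact l.Prime] {x : ℚ}
    (h1 : x.num.natAbs < l) (h2 : x.den < l) : x ∈ LI l := by
  by_cases hx : x = 0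
  · rw [hx]
    exact zero_mem _
  · exact le_of_eq (norm_one_of_large hx h1 h2)

theorem coeff_mem_LI {l : ℕ} [Fact l.Prime] {f : PowerSeries ℚ} {N : ℕ} {g : PowerSeries ℤ}
    (hN : N ≠ 0) (hg : (N : ℚ) • f = toQ g) (hl : ¬ l ∣ N) (n : ℕ) : coeff n f ∈ LI l := by
  have h1 : (N : ℚ) * coeff n f = (coeff n g : ℤ) := by
    have := congrArg (coeff n) hg
    rw [coeff_smul, coeff_map] at this
    exact this
  have h2 : coeff n f = ((coeff n g : ℤ) : ℚ) / (N : ℚ) := by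
    rw [← h1]
    have : (N : ℚ) ≠ 0 := Nat.cast_ne_zero.2 hN
    field_simp
  rw [h2]
  exact div_mem_LI _ hl

/-- The coefficients of `h_s`. -/
def IsH {r : ℕ} (a : ℕ → ℤ) (h : Fin r → PowerSeries ℚ) : Prop :=
  ∀ s n, coeff n (h s) =
    if ((s : ℕ) + 1) ∣ n then (a (n / ((s : ℕ) + 1)) : ℚ) / ((n / ((s : ℕ) + 1) : ℕ) : ℚ) else 0

variable {r : ℕ} {a : ℕ → ℤ} {h : Fin r → PowerSeries ℚ}

theorem IsH.th_mem (hh : IsH a h) (s : Fin r) : th (h s) ∈ BD := by
  have h1 : th (h s) = toQ (PowerSeries.mk fun n =>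
      if ((s : ℕ) + 1) ∣ n ∧ n ≠ 0 then (((s : ℕ) + 1 : ℕ) : ℤ) * a (n / ((s : ℕ) + 1)) else 0) := by
    ext n
    rw [coeff_th, hh, coeff_map, coeff_mk]
    by_cases hn : n = 0
    · rw [hn]
      simp
    by_cases hd : ((s : ℕ) + 1) ∣ n
    · rw [if_pos hd, if_pos ⟨hd, hn⟩]
      obtain ⟨m, hm⟩ := hd
      have hm0 : m ≠ 0 := by
        rintro rfl
        exact hn hm
      have h2 : n / ((s : ℕ) + 1) = m := by
        rw [hm]
        exact Nat.mul_div_cancel_left m (Nat.succ_pos _)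
      rw [h2, hm]
      have : (m : ℚ) ≠ 0 := Nat.cast_ne_zero.2 hm0
      push_cast
      simp only [eq_intCast]
      push_cast
      field_simp
    · rw [if_neg hd, if_neg (fun h => hd h.1)]
      simp
  rw [h1]
  exact toQ_mem _

theorem IsH.lin (hh : IsH a h) (hord : ∀ M : ℕ, ∃ l, M < l ∧ l.Prime ∧ ¬ (l : ℤ) ∣ a l)
    {v : PowerSeries ℚ} (hv : v ∈ BD) (hv0 : v ≠ 0) {c : Fin r → ℚ} (hc : c ≠ 0) :
    v * ∑ s, c s • h s ∉ BD := by
  classical
  intro hw
  obtain ⟨Nv, hNv, gv, hgv⟩ := mem_BD.1 hv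
  obtain ⟨Nw, hNw, gw, hgw⟩ := mem_BD.1 hw
  obtain ⟨n, hn, hn'⟩ := exists_low hv0
  obtain ⟨s₀, hs₀, hs₀'⟩ : ∃ s₀, c s₀ ≠ 0 ∧ ∀ s, s < s₀ → c s = 0 := by
    have h1 : (univ.filter fun s => c s ≠ 0).Nonempty := by
      obtain ⟨s, hs⟩ := Function.ne_iff.1 hc
      exact ⟨s, mem_filter.2 ⟨mem_univ s, hs⟩⟩
    refine ⟨(univ.filter fun s => c s ≠ 0).min' h1, (mem_filter.1 (min'_mem _ h1)).2, fun s hs => ?_⟩
    by_contra hne
    exact absurd (min'_le _ s (mem_filter.2 ⟨mem_univ s, hne⟩)) (not_le.2 hs)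
  obtain ⟨l, hl, hlp, hla⟩ := hord (Nv + Nw + (coeff n v).num.natAbs + (coeff n v).den +
    ∑ s, (c s).num.natAbs + ∑ s, (c s).den + (s₀ + 1))
  have : Fact l.Prime := ⟨hlp⟩
  have hc1 : ∀ s, (c s).num.natAbs < l := by
    intro s
    have := Finset.single_le_sum (f := fun s => (c s).num.natAbs) (fun _ _ => Nat.zero_le _)
      (mem_univ s)
    omega
  have hc2 : ∀ s, (c s).den < l := by
    intro s
    have := Finset.single_le_sum (f := fun s => (c s).den) (fun _ _ => Nat.zero_le _)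
      (mem_univ s)
    omega
  have hlNv : ¬ l ∣ Nv := fun h => by
    have := Nat.le_of_dvd (Nat.pos_of_ne_zero hNv) h
    omega
  have hlNw : ¬ l ∣ Nw := fun h => by
    have := Nat.le_of_dvd (Nat.pos_of_ne_zero hNw) h
    omega
  have hvL : ∀ i, coeff i v ∈ LI l := fun i => coeff_mem_LI hNv hgv hlNv i
  have hwL : ∀ i, coeff i (v * ∑ s, c s • h s) ∈ LI l := fun i => coeff_mem_LI hNw hgw hlNw i
  obtain ⟨m, hm⟩ : ∃ m, m = ((s₀ : ℕ) + 1) * l := ⟨_, rfl⟩
  have hl0 : 0 < l := hlp.pos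
  -- the coefficients of h_s
  have hterm : ∀ s j, j ≤ m → (s = s₀ → j < m) → s₀ ≤ s → coeff j (h s) ∈ LI l := by
    intro s j hj hsj hss
    rw [hh]
    split_ifs with hd
    · obtain ⟨t, ht⟩ := hd
      have h2 : j / ((s : ℕ) + 1) = t := by
        rw [ht]
        exact Nat.mul_div_cancel_left t (Nat.succ_pos _)
      rw [h2]
      by_cases ht0 : t = 0
      · rw [ht0]
        simp [zero_mem]
      refine div_mem_LI _ fun hlt => ?_
      have h3 := Nat.le_of_dvd (Nat.pos_of_ne_zero ht0) hlt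
      have hss' : (s₀ : ℕ) ≤ s := hss
      rcases hss'.lt_or_eq with h4 | h4
      · have h5 : ((s₀ : ℕ) + 1) * l < ((s : ℕ) + 1) * t := by nlinarith
        omega
      · have h6 : s = s₀ := Fin.ext h4.symm
        have h7 := hsj h6
        have h5 : ((s₀ : ℕ) + 1) * l ≤ ((s : ℕ) + 1) * t := by
          rw [h6]
          exact Nat.mul_le_mul_left _ h3
        omega
    · exact zero_mem _
  have hHlow : ∀ j < m, coeff j (∑ s, c s • h s) ∈ LI l := by
    intro j hj
    rw [map_sum]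
    refine sum_mem fun s _ => ?_
    rw [coeff_smul, smul_eq_mul]
    by_cases hs : s < s₀
    · rw [hs₀' s hs, zero_mul]
      exact zero_mem _
    · exact mul_mem (mem_LI_of_large (hc1 s) (hc2 s))
        (hterm s j hj.le (fun _ => hj) (not_lt.1 hs))
  have hHm : coeff m (∑ s, c s • h s) - c s₀ * ((a l : ℚ) / l) ∈ LI l := by
    rw [map_sum, ← add_sum_erase univ _ (mem_univ s₀)]
    have h1 : coeff m (h s₀) = (a l : ℚ) / l := by
      rw [hh, hm, if_pos (dvd_mul_right _ _), Nat.mul_div_cancel_left l (Nat.succ_pos _)]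
    rw [coeff_smul, smul_eq_mul, h1, add_sub_cancel_left]
    refine sum_mem fun s hs => ?_
    rw [coeff_smul, smul_eq_mul]
    have hne := ne_of_mem_erase hs
    by_cases hs : s < s₀
    · rw [hs₀' s hs, zero_mul]
      exact zero_mem _
    · exact mul_mem (mem_LI_of_large (hc1 s) (hc2 s))
        (hterm s m le_rfl (fun h => absurd h hne) (not_lt.1 hs))
  -- the coefficient of order n + m
  have hkey : coeff n v * (c s₀ * ((a l : ℚ) / l)) ∈ LI l := by
    have h1 := hwL (n + m)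
    rw [coeff_mul, ← add_sum_erase _ _ (show (n, m) ∈ antidiagonal (n + m) from
      HasAntidiagonal.mem_antidiagonal.2 (by simp))] at h1
    have h2 : ∑ x ∈ (antidiagonal (n + m)).erase (n, m), coeff x.1 v *
        coeff x.2 (∑ s, c s • h s) ∈ LI l := by
      refine sum_mem fun x hx => ?_
      obtain ⟨hx1, hx2⟩ := mem_erase.1 hx
      rw [HasAntidiagonal.mem_antidiagonal] at hx2
      rcases Nat.lt_or_ge x.1 n with h3 | h3
      · rw [hn' _ h3, zero_mul]
        exact zero_mem _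
      · refine mul_mem (hvL _) (hHlow _ ?_)
        by_contra h4
        apply hx1
        ext
        · change x.1 = n
          omega
        · change x.2 = m
          omega
    have h3 := sub_mem (sub_mem h1 h2) (mul_mem (hvL n) hHm)
    have h4 : coeff n v * coeff m (∑ s, c s • h s) + ∑ x ∈ (antidiagonal (n + m)).erase (n, m),
        coeff x.1 v * coeff x.2 (∑ s, c s • h s) - ∑ x ∈ (antidiagonal (n + m)).erase (n, m),
        coeff x.1 v * coeff x.2 (∑ s, c s • h s) -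
        coeff n v * (coeff m (∑ s, c s • h s) - c s₀ * ((a l : ℚ) / l)) =
        coeff n v * (c s₀ * ((a l : ℚ) / l)) := by ring
    rw [← h4]
    exact h3
  rw [mem_LI, padicNorm.mul, padicNorm.mul, padicNorm.div,
    norm_one_of_large hn (by omega) (by omega), norm_one_of_large hs₀ (hc1 s₀) (hc2 s₀),
    one_mul, one_mul, (padicNorm.int_eq_one_iff (a l)).2 hla, padicNorm.padicNorm_p_of_prime,
    one_div, inv_inv] at hkey
  have h5 : (1 : ℚ) < l := by exact_mod_cast hlp.one_lt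
  linarith

theorem IsH.ko (hh : IsH a h) (hord : ∀ M : ℕ, ∃ l, M < l ∧ l.Prime ∧ ¬ (l : ℤ) ∣ a l) :
    KO BD h where
  th_mem _ hx := th_mem_BD hx
  h_mem s := hh.th_mem s
  lin _ hv hv0 _ hc := hh.lin hord hv hv0 hc

/-- Independence over `ℤ[[q]]`. -/
theorem IsH.ind (hh : IsH a h) (hord : ∀ M : ℕ, ∃ l, M < l ∧ l.Prime ∧ ¬ (l : ℤ) ∣ a l)
    (S : Finset (Fin r → ℕ)) (P : (Fin r → ℕ) → PowerSeries ℤ) (hP : ∃ α ∈ S, P α ≠ 0) :
    ∑ α ∈ S, toQ (P α) * Hm h α ≠ 0 := by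
  classical
  intro hzero
  obtain ⟨α₁, hα₁, h1⟩ := hP
  have h2 := ko_main (hh.ko hord) (S.sup fun α => ∑ s, α s)
    (fun α => if α ∈ S then toQ (P α) else (0 : PowerSeries ℚ)) ?_ ?_ ?_ α₁
  · simp only [if_pos hα₁] at h2
    apply h1
    ext n
    have h3 := congrArg (coeff n) h2
    rw [coeff_map, map_zero] at h3
    rw [map_zero]
    have h4 : ((coeff n (P α₁) : ℤ) : ℚ) = 0 := h3
    exact_mod_cast h4
  · intro α
    split_ifs
    · exact toQ_mem _
    · exact BD.zero_mem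
  · intro α hα
    rw [if_neg]
    intro hαS
    have := Finset.le_sup (f := fun α : Fin r → ℕ => ∑ s, α s) hαS
    omega
  · unfold sm
    refine Eq.trans ?_ hzero
    symm
    have h5 : S ⊆ SD r (S.sup fun α => ∑ s, α s) := by
      intro α hα
      rw [mem_SD]
      exact Finset.le_sup (f := fun α : Fin r → ℕ => ∑ s, α s) hα
    rw [← sum_subset h5]
    · exact sum_congr rfl fun α hα => by simp only [if_pos hα]
    · intro α _ hα
      simp only [if_neg hα, zero_mul]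

end H53D
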