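import Pool.Agent.Lib.H53M.X17

/-!
# H53D, I3: `Δ` and `E₄` are algebraically independent over `ℚ`

At `-1/(z + 2 N)` a polynomial relation becomes a polynomial in `T = z + 2 N` with infinitely many
zeros: its isobaric components vanish at `z`. Then `z = i y`, `y → ∞`: `Δ → 0`, `E₄ → 1`.
-/

namespace H53D

open PowerSeries H53M Filter Topology

/-- The value of a polynomial in two variables, with the weight variable `T`. -/
noncomputable def vl (Q : MvPolynomial (Fin 2) ℚ) (D E T : ℂ) : ℂ :=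
  ∑ m ∈ Q.support, ((Q.coeff m : ℚ) : ℂ) * (D ^ m 0 * E ^ m 1) * T ^ (12 * m 0 + 4 * m 1)

theorem vl_one {Q : MvPolynomial (Fin 2) ℚ}
    (h : MvPolynomial.aeval ![toQ dl, toQ e4] Q = 0) {z : ℂ} (hz : 0 < z.im) :
    vl Q (ev (ktoC (toQ dl)) z) (ev (ktoC (toQ e4)) z) 1 = 0 := by
  have h1 : ev (ktoC (MvPolynomial.aeval ![toQ dl, toQ e4] Q)) z = 0 := by
    rw [h, map_zero]
    exact ev_zero hz
  rw [MvPolynomial.aeval_def, MvPolynomial.eval₂_eq', map_sum] at h1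
  have hterm : ∀ m : Fin 2 →₀ ℕ, ktoC ((algebraMap ℚ (PowerSeries ℚ)) (Q.coeff m) *
      ∏ i : Fin 2, (![toQ dl, toQ e4] : Fin 2 → PowerSeries ℚ) i ^ m i) =
      ((Q.coeff m : ℚ) : ℂ) • (ktoC (toQ dl) ^ m 0 * ktoC (toQ e4) ^ m 1) := by
    intro m
    rw [map_mul, Fin.prod_univ_two, map_mul, map_pow, map_pow, smul_eq_C_mul]
    congr 1
    have h2 : algebraMap ℚ (PowerSeries ℚ) (Q.coeff m) = C (Q.coeff m) := rfl
    rw [h2, map_C]
    simp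
  have hCv : ∀ m : Fin 2 →₀ ℕ, Cv (ktoC (toQ dl) ^ m 0 * ktoC (toQ e4) ^ m 1) := fun m =>
    Cv_mul (Cv_pow X.Cv_dl _) (Cv_pow X.Cv_e4 _)
  rw [ev_sum _ _ (fun m _ => by rw [hterm m]; exact Cv_smul _ (hCv m)) hz] at h1
  rw [← h1]
  unfold vl
  refine Finset.sum_congr rfl fun m _ => ?_
  rw [hterm m, ev_smul _ (hCv m) hz, ev_mul (Cv_pow X.Cv_dl _) (Cv_pow X.Cv_e4 _) hz,
    ev_pow X.Cv_dl _ hz, ev_pow X.Cv_e4 _ hz, one_pow, mul_one]

theorem im_inv {w : ℂ} (hw : 0 < w.im) : 0 < (-1 / w).im := by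
  have h := UpperHalfPlane.im_inv_neg_coe_pos ⟨w, hw⟩
  have h3 : (-((⟨w, hw⟩ : UpperHalfPlane) : ℂ))⁻¹ = -1 / w := by
    simp [neg_div]
  rwa [h3] at h

theorem vl_all {Q : MvPolynomial (Fin 2) ℚ}
    (h : MvPolynomial.aeval ![toQ dl, toQ e4] Q = 0) {z : ℂ} (hz : 0 < z.im) (N : ℕ) :
    vl Q (ev (ktoC (toQ dl)) z) (ev (ktoC (toQ e4)) z) (z + 2 * (N : ℂ)) = 0 := by
  have hz1 : 0 < (z + 2 * (N : ℂ)).im := by
    have h1 : (2 * (N : ℂ)).im = 0 := by simp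
    rw [Complex.add_im, h1, add_zero]
    exact hz
  have hz2 : 0 < (-1 / (z + 2 * (N : ℂ))).im := im_inv hz1
  have h1 := vl_one h hz2
  rw [X.dl_trans hz1, X.e4_trans hz1, X.ev_period, X.ev_period] at h1
  rw [← h1]
  unfold vl
  refine Finset.sum_congr rfl fun m _ => ?_
  rw [mul_pow, mul_pow, ← pow_mul, ← pow_mul, one_pow, pow_add]
  ring

theorem comp_zero {Q : MvPolynomial (Fin 2) ℚ}
    (h : MvPolynomial.aeval ![toQ dl, toQ e4] Q = 0) {z : ℂ} (hz : 0 < z.im) (w : ℕ) :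
    ∑ m ∈ Q.support.filter (fun m => 12 * m 0 + 4 * m 1 = w), ((Q.coeff m : ℚ) : ℂ) *
      (ev (ktoC (toQ dl)) z ^ m 0 * ev (ktoC (toQ e4)) z ^ m 1) = 0 := by
  obtain ⟨D, hD⟩ : ∃ D, D = ev (ktoC (toQ dl)) z := ⟨_, rfl⟩
  obtain ⟨E, hE⟩ : ∃ E, E = ev (ktoC (toQ e4)) z := ⟨_, rfl⟩
  rw [← hD, ← hE]
  obtain ⟨R, hR⟩ : ∃ R : Polynomial ℂ, R = ∑ m ∈ Q.support,
      Polynomial.monomial (12 * m 0 + 4 * m 1) (((Q.coeff m : ℚ) : ℂ) * (D ^ m 0 * E ^ m 1)) :=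
    ⟨_, rfl⟩
  have hev : ∀ N : ℕ, R.eval (z + 2 * (N : ℂ)) = 0 := by
    intro N
    rw [hR, Polynomial.eval_finset_sum]
    have h1 := vl_all h hz N
    rw [← hD, ← hE] at h1
    unfold vl at h1
    rw [← h1]
    exact Finset.sum_congr rfl fun m _ => Polynomial.eval_monomial
  have hR0 : R = 0 := by
    refine Polynomial.eq_zero_of_infinite_isRoot R ?_
    refine Set.infinite_of_injective_forall_mem (f := fun N : ℕ => z + 2 * (N : ℂ)) ?_ ?_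
    · intro N N' hNN
      have h1 : z + 2 * (N : ℂ) = z + 2 * (N' : ℂ) := hNN
      have h2 : (N : ℂ) = N' := by linear_combination h1 / 2
      exact_mod_cast h2
    · intro N
      exact hev N
  have h1 := congrArg (fun R : Polynomial ℂ => R.coeff w) hR0
  simp only [Polynomial.coeff_zero] at h1
  rw [hR, Polynomial.finset_sum_coeff] at h1
  rw [Finset.sum_filter]
  refine Eq.trans (Finset.sum_congr rfl fun m _ => ?_) h1
  rw [Polynomial.coeff_monomial]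

theorem algIndep_dl_e4 : AlgebraicIndependent ℚ ![toQ dl, toQ e4] := by
  classical
  rw [algebraicIndependent_iff]
  intro Q hQ
  by_contra hne
  obtain ⟨m₁, hm₁⟩ := MvPolynomial.support_nonempty.2 hne
  obtain ⟨m₀, hm₀, hmin⟩ := Finset.exists_min_image
    (Q.support.filter fun m => 12 * m 0 + 4 * m 1 = 12 * m₁ 0 + 4 * m₁ 1) (fun m => m 0)
    ⟨m₁, Finset.mem_filter.2 ⟨hm₁, rfl⟩⟩
  obtain ⟨S, hS⟩ : ∃ S, S = Q.support.filter fun m => 12 * m 0 + 4 * m 1 =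
    12 * m₁ 0 + 4 * m₁ 1 := ⟨_, rfl⟩
  rw [← hS] at hm₀ hmin
  have hlim : Tendsto (fun y : ℝ => ∑ m ∈ S, ((Q.coeff m : ℚ) : ℂ) *
      (ev (ktoC (toQ dl)) (Complex.I * (y : ℂ)) ^ (m 0 - m₀ 0) *
        ev (ktoC (toQ e4)) (Complex.I * (y : ℂ)) ^ m 1)) atTop
      (𝓝 (∑ m ∈ S, ((Q.coeff m : ℚ) : ℂ) * ((0 : ℂ) ^ (m 0 - m₀ 0) * (1 : ℂ) ^ m 1))) := by
    refine tendsto_finsetSum _ fun m _ => ?_
    exact ((X.dl_tendsto.pow _).mul (X.e4_tendsto.pow _)).const_mul _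
  have hzero : ∀ᶠ y : ℝ in atTop, ∑ m ∈ S, ((Q.coeff m : ℚ) : ℂ) *
      (ev (ktoC (toQ dl)) (Complex.I * (y : ℂ)) ^ (m 0 - m₀ 0) *
        ev (ktoC (toQ e4)) (Complex.I * (y : ℂ)) ^ m 1) = 0 := by
    filter_upwards [X.dl_ne, eventually_gt_atTop (0 : ℝ)] with y hy hy0
    have hz : 0 < (Complex.I * (y : ℂ)).im := by simpa using hy0
    have h1 := comp_zero hQ hz (12 * m₁ 0 + 4 * m₁ 1)
    rw [← hS] at h1
    have h2 : ev (ktoC (toQ dl)) (Complex.I * (y : ℂ)) ^ m₀ 0 * ∑ m ∈ S, ((Q.coeff m : ℚ) : ℂ) *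
        (ev (ktoC (toQ dl)) (Complex.I * (y : ℂ)) ^ (m 0 - m₀ 0) *
        ev (ktoC (toQ e4)) (Complex.I * (y : ℂ)) ^ m 1) = 0 := by
      rw [Finset.mul_sum, ← h1]
      refine Finset.sum_congr rfl fun m hm => ?_
      have h3 := hmin m hm
      have h4 : ev (ktoC (toQ dl)) (Complex.I * (y : ℂ)) ^ m 0 =
          ev (ktoC (toQ dl)) (Complex.I * (y : ℂ)) ^ m₀ 0 *
          ev (ktoC (toQ dl)) (Complex.I * (y : ℂ)) ^ (m 0 - m₀ 0) := by
        rw [← pow_add]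
        congr 1
        omega
      rw [h4]
      ring
    exact (mul_eq_zero.1 h2).resolve_left (pow_ne_zero _ hy)
  have h5 := tendsto_nhds_unique (hlim.congr' hzero) tendsto_const_nhds
  have h6 : ∑ m ∈ S, ((Q.coeff m : ℚ) : ℂ) * ((0 : ℂ) ^ (m 0 - m₀ 0) * (1 : ℂ) ^ m 1) =
      ((Q.coeff m₀ : ℚ) : ℂ) := by
    rw [Finset.sum_eq_single m₀]
    · simp
    · intro m hm hne'
      have h7 := hmin m hm
      have h8 : m 0 ≠ m₀ 0 := by
        intro h9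
        apply hne'
        rw [hS, Finset.mem_filter] at hm hm₀
        have h10 : m 1 = m₀ 1 := by omega
        ext i
        fin_cases i
        · exact h9
        · exact h10
      rw [zero_pow (by omega), zero_mul, mul_zero]
    · intro h7
      exact absurd hm₀ h7
  rw [h6] at h5
  have h7 : Q.coeff m₀ = 0 := by exact_mod_cast h5
  rw [hS, Finset.mem_filter, MvPolynomial.mem_support_iff] at hm₀
  exact hm₀.1 h7

end H53D
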